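import Pool.Agent.Work.MP_e17eac_co.Bd.B36
import Pool.Agent.Work.MP_e17eac_co.Bd.B08
import Pool.Agent.Work.MP_e17eac_co.Bd.B12
import Pool.Agent.Work.MP_e17eac_co.Bd.B31

/-!
# FLUX
-/

namespace Pool.Agent.Work.MP_e17eac_co.B4

open Finset
open Pool.Agent.Work.MP_e17eac_co.DH
open Pool.Agent.Work.MP_e17eac_co.B1
open Pool.Agent.Work.MP_e17eac_co.BB

theorem I_Flux (hX0 : StX0) (hX1 : StX1) (hBig : StOneBig) (hGrow : StGrow) (hVit : StVit)
    (hTok : StFluxTok) : BB.StFlux := by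
  intro m e kp l
  obtain ⟨C1, hC1⟩ := hBig
  obtain ⟨C2, hC2⟩ := hGrow m e kp l
  obtain ⟨C3, hC3⟩ := hVit m e kp l
  obtain ⟨C4, c2, hC4⟩ := hTok m e kp l
  refine ⟨C1 + C2 + C3 + C4 + 2 * c2 + 200, 10, ?_⟩
  intro ι _ _ K r H D s0 e0 L κ X2 X4 S E hb ho x hx y hy1 hy2 hy3 hx2
  have hb1 := hC1 ι K r m H D s0 e0 L κ e kp l X2 X4 S E (big_mono hb (by omega)) ho
  have hg := hC2 ι K r H D s0 e0 L κ X2 X4 S E (big_mono hb (by omega)) ho
  have hv := hC3 ι K r H D s0 e0 L κ X2 X4 S E (big_mono hb (by omega)) ho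
  have ht := hC4 ι K r H D s0 e0 L κ X2 X4 S E (big_mono hb (by omega)) ho
  set q := k6 kp l with hq
  have hxI := mem_Icc.1 (ho.sub hx)
  have hlev := ho.lev
  have hx1 : 1 ≤ x := by omega
  have hxm : x ≤ m := by omega
  have hr4 : 4 ≤ r := big_r hb (by omega)
  have hr4' : (4 : ℝ) ≤ r := by exact_mod_cast hr4
  have hr1 : (1 : ℝ) ≤ r := by linarith
  have hD2 := hb.D2
  have hD1 : (1 : ℝ) ≤ D := by linarith
  have hD0 : (0 : ℝ) < D := by linarith
  have hHD := hb.HD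
  have hH1 := hb.std.one
  have hEN : E ⊆ range K.N := fun i hi => mem_range.2 (ho.hyg i hi).lt
  have hnpos : (0 : ℝ) < Fintype.card ι := lt_of_lt_of_le (by positivity) hb.rn
  have hn0 : 0 < Fintype.card ι := by exact_mod_cast hnpos
  have hNpos : 0 < K.N := lt_of_lt_of_le (by positivity) hb.std.pow
  have hNpos' : (0 : ℝ) < K.N := by exact_mod_cast hNpos
  have hEne : E.Nonempty := by
    rw [← card_pos]
    rcases Nat.eq_zero_or_pos E.card with h | h
    · exfalso
      have := ho.card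
      rw [h] at this
      simp only [Nat.cast_zero, mul_zero] at this
      linarith
    · exact h
  -- regular subset
  obtain ⟨E', hE'E, hE'ne, hE'c, hreg⟩ := I_REG (ℕ × ℕ × Option ι) (Option Bool)
    (fun k i => match k with
      | none => (cell K r x i, κ y (K.a i), (none : Option ι))
      | some s => (cell K r x i, κ y (K.a i), some (K.tok s i))) E hEne
  have hlog : ((Nat.log 2 E.card : ℝ) + 1) ≤ D ^ 3 :=
    log_le hb (by omega) (by
      have := card_le_card hEN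
      rwa [card_range] at this)
  have hlog0 : (0 : ℝ) ≤ (Nat.log 2 E.card : ℝ) + 1 := by positivity
  have hcard3 : Fintype.card (Option Bool) = 3 := by simp
  rw [hcard3] at hE'c hreg
  set ℓ := (Nat.log 2 E.card : ℝ) + 1 with hℓ
  have hℓ3 : ℓ ^ 3 ≤ D ^ 9 := by
    calc ℓ ^ 3 ≤ (D ^ 3) ^ 3 := pow_le_pow_left₀ hlog0 hlog 3
      _ = D ^ 9 := by ring
  have hℓ1 : 1 ≤ ℓ := by
    have : (0 : ℝ) ≤ (Nat.log 2 E.card : ℝ) := Nat.cast_nonneg _
    linarith
  have hEE' : (E.card : ℝ) ≤ D ^ 10 * E'.card := by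
    refine hE'c.trans (mul_le_mul_of_nonneg_right ?_ (Nat.cast_nonneg _))
    calc 2 * ℓ ^ 3 ≤ D * D ^ 9 := mul_le_mul hD2 hℓ3 (by positivity) hD0.le
      _ = D ^ 10 := by ring
  set Λ : ℝ := 8 * (((3 : ℕ) : ℝ) + 1) * ℓ ^ 3 with hΛdef
  have hΛ1 : 1 ≤ Λ := by
    have : 1 ≤ ℓ ^ 3 := one_le_pow₀ hℓ1
    rw [hΛdef]; push_cast; linarith
  have hΛD : Λ ≤ D ^ 14 := by
    have h32 : (2 : ℝ) ^ 5 ≤ D ^ 5 := pow_le_pow_left₀ (by norm_num) hD2 5
    calc Λ = 32 * ℓ ^ 3 := by rw [hΛdef]; push_cast; ring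
      _ ≤ D ^ 5 * D ^ 9 := mul_le_mul (by linarith) hℓ3 (by positivity) (by positivity)
      _ = D ^ 14 := by ring
  have hreg0 : RegF Λ E' (fun i => (cell K r x i, κ y (K.a i), (none : Option ι))) :=
    hreg none
  have hreg1 : ∀ s, RegF Λ E' (fun i => (cell K r x i, κ y (K.a i), some (K.tok s i))) :=
    fun s => hreg (some s)
  refine ⟨E', hE'E, hEE', ?_⟩
  -- tokens
  set T : ℝ := D ^ c2 * Fintype.card ι * (r : ℝ) ^ (2 * y + e) with hT
  have htok : ∀ s, ((E'.image (fun i => (cell K r x i, κ y (K.a i), K.tok s i))).card : ℝ) ≤ T :=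
    fun s => le_trans (by exact_mod_cast card_le_card (image_subset_image hE'E))
      ((ht y (by omega) (by omega) s).2 x hy3 hxm)
  -- Vitali
  set j := 4 * x + kp + q with hj
  obtain ⟨Z, g, E'', hV⟩ := hv j (by omega) (by omega) E' hE'E
  have hNF : (K.N : ℝ) ≤ D ^ 11 * E'.card := by
    calc (K.N : ℝ) ≤ D * E.card := ho.card
      _ ≤ D * (D ^ 10 * E'.card) := mul_le_mul_of_nonneg_left hEE' hD0.le
      _ = D ^ 11 * E'.card := by ring
  have hsz : 4 * (Fintype.card ι : ℝ) * (r : ℝ) ^ (j + q) ≤ E'.card :=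
    size hb (by omega) hNF (by omega)
  have hrj : (16 : ℝ) ≤ (r : ℝ) ^ j := by
    calc (16 : ℝ) ≤ (r : ℝ) ^ 2 := by nlinarith
      _ ≤ (r : ℝ) ^ j := pow_le_pow_right₀ hr1 (by omega)
  have hfew : ((E' \ E'').card : ℝ) ≤ 2 * Fintype.card ι * (r : ℝ) ^ (j + q) := by
    calc ((E' \ E'').card : ℝ) ≤ 2 * Fintype.card ι * Z.card := by exact_mod_cast hV.few
      _ ≤ 2 * Fintype.card ι * (r : ℝ) ^ (j + q) :=
        mul_le_mul_of_nonneg_left (by exact_mod_cast hV.card) (by positivity)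
  have hhalf : (E'.card : ℝ) ≤ 2 * E''.card := by
    have h1 : ((E' \ E'').card : ℝ) + E''.card = E'.card := by
      exact_mod_cast card_sdiff_add_card_eq_card hV.sub
    linarith
  -- units
  set V : ℕ × ι → ℕ := fun u => ((Nb K r m H s0 e0 j 3 u.2).filter
    (fun s => κ y s = u.1)).card with hVdef
  have hVsum : ∑ u ∈ E''.image (fun i => (κ y (K.a i), g (K.a i))), V u ≤
      ∑ z ∈ Z, (Nb K r m H s0 e0 j 3 z).card := by
    refine sum_units Z (Nb K r m H s0 e0 j 3) (κ y) _ ?_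
    intro u hu
    obtain ⟨i, hi, rfl⟩ := mem_image.1 hu
    exact hV.gZ i (hV.sub hi)
  have hVle : ((∑ u ∈ E''.image (fun i => (κ y (K.a i), g (K.a i))), V u : ℕ) : ℝ) ≤
      Fintype.card ι * (r : ℝ) ^ q := by
    have h1 : (∑ z ∈ Z, (Nb K r m H s0 e0 j 3 z).card) * r ^ j ≤
        (Fintype.card ι * r ^ q) * r ^ j := by
      calc (∑ z ∈ Z, (Nb K r m H s0 e0 j 3 z).card) * r ^ j
          = ∑ z ∈ Z, (Nb K r m H s0 e0 j 3 z).card * r ^ j := sum_mul _ _ _
        _ ≤ ∑ z ∈ Z, Fintype.card ι := sum_le_sum hV.box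
        _ = Z.card * Fintype.card ι := by rw [sum_const, smul_eq_mul]
        _ ≤ r ^ (j + q) * Fintype.card ι := Nat.mul_le_mul_right _ hV.card
        _ = (Fintype.card ι * r ^ q) * r ^ j := by rw [pow_add]; ring
    have h2 := Nat.le_of_mul_le_mul_right h1 (by positivity)
    exact_mod_cast hVsum.trans h2
  have hx0 := hX0 ι (ℕ × ι) K hb.std.inj (fun i => (κ y (K.a i), g (K.a i))) V E''
    ((hV.sub.trans hE'E).trans hEN) (by
      intro U hU s
      obtain ⟨i, hi, rfl⟩ := mem_image.1 hU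
      refine card_le_card (fun p hp => ?_)
      obtain ⟨i', hi', rfl⟩ := mem_image.1 hp
      obtain ⟨h1, h2⟩ := mem_filter.1 hi'
      simp only [Prod.mk.injEq] at h2
      have hbox := hV.inbox i' h1
      rw [h2.2] at hbox
      have hed := (ho.hash y (by omega) (by omega)).edge i' (hE'E (hV.sub h1))
      cases s
      · exact mem_filter.2 ⟨hbox.1, h2.1⟩
      · exact mem_filter.2 ⟨hbox.2, hed.symm.trans h2.1⟩) (by
      have h1 : (32 : ℝ) * ((∑ u ∈ E''.image (fun i => (κ y (K.a i), g (K.a i))), V u : ℕ) : ℝ) ≤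
          E''.card := by
        have h2 : 16 * ((Fintype.card ι : ℝ) * (r : ℝ) ^ q) ≤
            (r : ℝ) ^ j * ((Fintype.card ι : ℝ) * (r : ℝ) ^ q) :=
          mul_le_mul_of_nonneg_right hrj (by positivity)
        have h3 : 4 * ((r : ℝ) ^ j * ((Fintype.card ι : ℝ) * (r : ℝ) ^ q)) ≤ E'.card := by
          refine le_trans (le_of_eq ?_) hsz
          rw [pow_add]; ring
        linarith
      exact_mod_cast h1)
  -- degrees
  have hPS : ∀ j' : ℕ, 1 ≤ j' → (Fintype.card ι : ℝ) < (PS K r m H).card * (r : ℝ) ^ j' := by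
    intro j' hj'
    exact_mod_cast hb1.2 j' hj'
  have hgx : ∀ i ∈ E, (r : ℝ) ^ 2 * rd K r m H s0 e0 j (K.a i) ≤
      rd K r m H s0 e0 (4 * x + kp) (K.a i) := hg (4 * x + kp) (by omega) (by omega)
  have hdeg : ∀ i ∈ E'', ((E''.filter (fun j' => g (K.a j') = g (K.a i))).image
      (cell K r x)).card ≤ ⌊H * (r : ℝ) ^ x⌋₊ := by
    intro i hi
    have hi' := hV.sub hi
    have hcore := hV.core _ (hV.gZ i hi')
    have hne : (Nb K r m H s0 e0 j 1 (g (K.a i))).Nonempty := by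
      rw [← card_pos]
      rcases Nat.eq_zero_or_pos (Nb K r m H s0 e0 j 1 (g (K.a i))).card with h | h
      · rw [h] at hcore; omega
      · exact h
    obtain ⟨p, hp⟩ := hne
    have hpPS : p ∈ PS K r m H := (mem_filter.1 hp).1
    refine Nat.le_floor ?_
    have h1 := deg_le I_CELL K (r := r) (x := x) (by omega)
      (E''.filter (fun j' => g (K.a j') = g (K.a i)))
      (fun j' hj' => (ho.hyg j' (hE'E (hV.sub (mem_filter.1 hj').1))).lt) p (by
        intro j' hj'
        obtain ⟨h2, h3⟩ := mem_filter.1 hj'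
        have h4 := hV.sub h2
        refine core_vis ho hr4 hx (hE'E h4) (hgx j' (hE'E h4)) (hV.dist j' h4) (hV.ge j' h4) ?_
        rw [h3]; exact hp)
    calc (((E''.filter (fun j' => g (K.a j') = g (K.a i))).image (cell K r x)).card : ℝ)
        ≤ (W K r x p : ℝ) := by exact_mod_cast h1
      _ ≤ H * (r : ℝ) ^ x := by
        have := hpPS
        unfold PS at this
        exact (mem_filter.1 this).2 x hxm
  have hxu := card_XU hX1 I_CNT K hΛ1 E' E'' (hE'E.trans hEN) hV.sub (cell K r x)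
    (fun i => κ y (K.a i)) (fun i => g (K.a i)) _ hdeg hreg0 hreg1 T htok
  -- number of units
  have hU := card_units ho hr4 hn0 (y := y) (j := j) (k := q) (j2 := 4 * y - 1 - q)
    (by omega) (by omega) (by omega) (by omega) (by omega) hPS (by
      intro i hi
      refine rad_pos K (PS K r m H) s0 e0 r (4 * y - 1) hb.std.inj ho.lab.base
        (hPS _ (by omega)) ?_
      refine le_trans (pow_le_pow_right₀ hr1 ?_) hb.rn
      calc 4 * y - 1 ≤ 200 * (m + 1) := by omega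
        _ ≤ _ := Nat.mul_le_mul_right _ (by omega)) (by
      intro i hi
      have := hg (4 * y - 1 - q) (by omega) (by omega) i hi
      have he : 4 * y - 1 - q + q = 4 * y - 1 := by omega
      rwa [he] at this) hE'E hV
  have hU' : ((E''.image (fun i => (κ y (K.a i), g (K.a i)))).card : ℝ) ≤
      (r : ℝ) ^ (4 * x + e + kp + 3 * q + 1) := by
    have he : r ^ (4 * y + e) * r ^ (j + q - (4 * y - 1 - q)) =
        r ^ (4 * x + e + kp + 3 * q + 1) := by
      rw [← pow_add]; congr 1; omega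
    rw [he] at hU
    exact_mod_cast hU
  have hfl : ((⌊H * (r : ℝ) ^ x⌋₊ : ℕ) : ℝ) ≤ D * (r : ℝ) ^ x :=
    (Nat.floor_le (by positivity)).trans (mul_le_mul_of_nonneg_right hHD (by positivity))
  have hfin := flux_num (n := (Fintype.card ι : ℝ)) (D := D) (r := (r : ℝ))
    (G := ((E'.image (fun i => (cell K r x i, κ y (K.a i)))).card : ℝ)) (T := T) (Λ := Λ)
    (V := ((∑ u ∈ E''.image (fun i => (κ y (K.a i), g (K.a i))), V u : ℕ) : ℝ))
    (F2 := (E''.card : ℝ)) (HN := H * K.N) (c := c2) (a := 4 * x + e + kp + 3 * q + 1)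
    (b := x) (d := 2 * y + e) (q := q) hnpos hD2 hr1 (Nat.cast_nonneg _) (Nat.cast_nonneg _)
    (by linarith) (by positivity) (dense4 hb.std) (by positivity) (by
      calc H * (K.N : ℝ) ≤ D * (D ^ 11 * E'.card) :=
            mul_le_mul hHD hNF (by positivity) (by positivity)
        _ = D ^ 12 * E'.card := by ring
        _ ≤ D ^ 12 * (2 * E''.card) := mul_le_mul_of_nonneg_left hhalf (by positivity)
        _ = 2 * D ^ 12 * E''.card := by ring) hx0 hxu hVle hU' hfl hΛD le_rfl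
  have hDr : D ^ (111 + 2 * c2) ≤ (r : ℝ) :=
    le_trans (pow_le_pow_right₀ hD1 (by omega)) hb.Dr
  have hlast : ((E'.image (fun i => (cell K r x i, κ y (K.a i)))).card : ℝ) ^ 2 ≤
      ((r : ℝ) ^ (3 * x + 2 * y + k8 e kp l)) ^ 2 := by
    refine hfin.trans ?_
    calc D ^ (111 + 2 * c2) * (r : ℝ) ^ (2 * q + (4 * x + e + kp + 3 * q + 1) + 2 * x +
          2 * (2 * y + e)) ≤ (r : ℝ) * (r : ℝ) ^ (2 * q + (4 * x + e + kp + 3 * q + 1) + 2 * x +
          2 * (2 * y + e)) := mul_le_mul_of_nonneg_right hDr (by positivity)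
      _ = (r : ℝ) ^ (2 * q + (4 * x + e + kp + 3 * q + 1) + 2 * x +
          2 * (2 * y + e) + 1) := by ring
      _ ≤ (r : ℝ) ^ ((3 * x + 2 * y + k8 e kp l) * 2) := by
          refine pow_le_pow_right₀ hr1 ?_
          unfold k8
          rw [← hq]
          omega
      _ = _ := pow_mul _ _ _
  have := le_of_pow_le_pow_left₀ (by norm_num) (by positivity) hlast
  exact_mod_cast this

end Pool.Agent.Work.MP_e17eac_co.B4
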