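import Pool.Agent.Work.MP_e17eac_co.BB.St4
import Pool.Agent.Work.MP_e17eac_co.Bd.B33

/-!
# VIT for the one-sided structure
-/

namespace Pool.Agent.Work.MP_e17eac_co.B4

open Finset
open Pool.Agent.Work.MP_e17eac_co.DH
open Pool.Agent.Work.MP_e17eac_co.B1
open Pool.Agent.Work.MP_e17eac_co.BB

variable {ι : Type} [Fintype ι] [DecidableEq ι]

theorem big_r {K : KSys ι} {r m : ℕ} {H D : ℝ} {C : ℕ} (h : Big K r m H D C) (hC : 2 ≤ C) :
    4 ≤ r := by
  have h1 : D ^ 2 ≤ D ^ C := pow_le_pow_right₀ (by linarith [h.D2]) hC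
  have h2 := h.Dr
  have h3 := h.D2
  have h4 : (4 : ℝ) ≤ r := by nlinarith
  exact_mod_cast h4

theorem big_mono {K : KSys ι} {r m : ℕ} {H D : ℝ} {C C' : ℕ} (h : Big K r m H D C)
    (hC : C' ≤ C) : Big K r m H D C' := by
  have hD : (1 : ℝ) ≤ D := by linarith [h.D2]
  have hr : (1 : ℝ) ≤ r := le_trans (one_le_pow₀ hD) h.Dr
  exact ⟨h.std, h.gp, h.HD, h.D2, h.log, h.ub, le_trans (pow_le_pow_right₀ hD hC) h.Dr,
    le_trans (pow_le_pow_right₀ hr (Nat.mul_le_mul_right _ hC)) h.rn⟩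

theorem I_Vit (hBig : StOneBig) (hGrow : StGrow) : StVit := by
  intro m e kp l
  obtain ⟨C1, hC1⟩ := hBig
  obtain ⟨C2, hC2⟩ := hGrow m e kp l
  refine ⟨C1 + C2 + 4, ?_⟩
  intro ι _ _ K r H D s0 e0 L κ X2 X4 S E hb ho j hj1 hj2 E' hE'
  have hb1 := hC1 ι K r m H D s0 e0 L κ e kp l X2 X4 S E (big_mono hb (by omega)) ho
  have hg := hC2 ι K r H D s0 e0 L κ X2 X4 S E (big_mono hb (by omega)) ho j hj1 hj2
  have hr := big_r hb (by omega)
  have hr1 : (1 : ℝ) ≤ r := by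
    have : 1 ≤ r := by omega
    exact_mod_cast this
  have hlev := ho.lev
  have hj : 1 ≤ j := by omega
  have hS : (Fintype.card ι : ℝ) < (PS K r m H).card * (r : ℝ) ^ j := by
    exact_mod_cast hb1.2 j hj
  have hn : (r : ℝ) ^ j ≤ Fintype.card ι := by
    refine le_trans (pow_le_pow_right₀ hr1 ?_) hb.rn
    nlinarith [hlev.1, hlev.2]
  obtain ⟨Z, g, E'', h1, h2, h3, h4, h5, h6, h7, h8, h9⟩ :=
    vit K hb.std.inj (PS K r m H) ho.lab.base hr hS hn E' (fun i hi => by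
      have hi' := hE' hi
      refine ⟨(ho.hyg i hi').lt, (ho.lab.tm i hi').1, (ho.lab.tm i hi').2, ?_, ?_⟩
      · exact (ho.hyg i hi').ps false
      · exact (ho.hyg i hi').ps true) (fun i hi => hg i (hE' hi))
  have e1 : ∀ z, Nb K r m H s0 e0 j 1 z =
      bal K (PS K r m H) s0 e0 z (rad K (PS K r m H) s0 e0 r j z / 10) := by
    intro z
    ext q
    simp only [Nb, bal, rd, mem_filter, one_mul]
  have e3 : ∀ z, Nb K r m H s0 e0 j 3 z =
      bal K (PS K r m H) s0 e0 z (3 * (rad K (PS K r m H) s0 e0 r j z / 10)) := by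
    intro z
    ext q
    simp only [Nb, bal, rd, mem_filter, mul_div_assoc]
  refine ⟨Z, g, E'', h1, h2, fun i hi => (h4 i hi).1, ?_, fun i hi => (h4 i hi).2.2.1,
    fun i hi => (h4 i hi).2.2.2, ?_, ?_, ?_, ?_, ?_, ?_⟩
  · intro i hi
    have := (h4 i hi).2.1
    simp only [rd]
    linarith
  · intro z hz z' hz' hne
    rw [e1, e1]
    exact h5 z hz z' hz' hne
  · intro z hz
    rw [e1]
    exact_mod_cast h6 z hz
  · exact_mod_cast h7
  · intro z hz
    rw [e3]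
    exact_mod_cast h8 z hz
  · intro i hi
    rw [e3]
    exact h9 i hi
  · exact h3

end Pool.Agent.Work.MP_e17eac_co.B4
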